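import Pool.Agent.Y501.SY.StmS

/-!
# Project SYS: averages of a bounded measurable function over balls of variable positive radius
are smooth (S_KER)
-/

set_option autoImplicit false

open Set Filter Topology MeasureTheory
open scoped Manifold ContDiff Convolution

noncomputable section

namespace Pool.Agent.Y932.SY.Ker

open Pool.Agent.Y501.SY (E)

/-- the kernel -/
def kk {d : ℕ} (g χ : E d → ℝ) (p x : E d) : ℝ :=
  (χ p ^ d)⁻¹ * g ((χ p)⁻¹ • (-x - p))

theorem subst {d : ℕ} (g χ f : E d → ℝ) (p : E d) (hp : 0 < χ p) :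
    ∫ y, g y * f (p + χ p • y) = (f ⋆[ContinuousLinearMap.mul ℝ ℝ, volume] kk g χ p) 0 := by
  have h0 : χ p ≠ 0 := hp.ne'
  set H : E d → ℝ := fun z => g ((χ p)⁻¹ • (z - p)) * f z with hH
  have h1 : (fun y => g y * f (p + χ p • y)) = fun y => (fun x => H (p + x)) (χ p • y) := by
    ext y
    simp only [hH]
    rw [add_sub_cancel_left, smul_smul, inv_mul_cancel₀ h0, one_smul]
  rw [h1, Measure.integral_comp_smul volume (fun x => H (p + x)) (χ p),
    integral_add_left_eq_self H p, finrank_euclideanSpace, Fintype.card_fin, abs_of_pos (by positivity),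
    smul_eq_mul, ← integral_const_mul]
  unfold convolution
  congr 1
  ext z
  simp only [hH, kk, ContinuousLinearMap.mul_apply', zero_sub, neg_neg]
  ring

theorem locInt {d : ℕ} (f : E d → ℝ) (hf : AEStronglyMeasurable f volume)
    (hB : ∃ B : ℝ, ∀ x, |f x| ≤ B) : LocallyIntegrable f volume := by
  obtain ⟨B, hB⟩ := hB
  rw [locallyIntegrable_iff]
  intro K hK
  exact Measure.integrableOn_of_bounded (M := B) hK.measure_lt_top.ne hf
    (ae_of_all _ fun x => by rw [Real.norm_eq_abs]; exact hB x)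

/-- the region of parameters and the support -/
theorem region {d : ℕ} (g χ : E d → ℝ) (hg : ContDiff ℝ ∞ g) (hgc : HasCompactSupport g)
    (hχ : ContDiff ℝ ∞ χ) (p₀ : E d) (hp₀ : 0 < χ p₀) :
    ∃ (s K : Set (E d)), IsOpen s ∧ p₀ ∈ s ∧ IsCompact K ∧ (∀ p ∈ s, 0 < χ p) ∧
      (∀ p, ∀ x, p ∈ s → x ∉ K → kk g χ p x = 0) ∧
      ContDiffOn ℝ ∞ (Function.HasUncurry.uncurry (kk g χ)) (s ×ˢ univ) := by
  obtain ⟨R, hR⟩ := hgc.isCompact.isBounded.subset_closedBall 0
  set s : Set (E d) := {p | 0 < χ p} ∩ {p | χ p < χ p₀ + 1} ∩ Metric.ball p₀ 1 with hs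
  have hso : IsOpen s := ((isOpen_lt continuous_const hχ.continuous).inter
    (isOpen_lt hχ.continuous continuous_const)).inter Metric.isOpen_ball
  refine ⟨s, Metric.closedBall 0 ((χ p₀ + 1) * |R| + (‖p₀‖ + 1)), hso, ?_, isCompact_closedBall _ _,
    fun p hp => hp.1.1, ?_, ?_⟩
  · exact ⟨⟨hp₀, by show χ p₀ < χ p₀ + 1; linarith⟩, Metric.mem_ball_self one_pos⟩
  · intro p x hp hx
    by_contra hne
    apply hx
    have h1 : g ((χ p)⁻¹ • (-x - p)) ≠ 0 := by
      intro h0
      apply hne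
      unfold kk
      rw [h0, mul_zero]
    have h2 := hR (subset_tsupport g h1)
    rw [mem_closedBall_zero_iff, norm_smul, norm_inv, Real.norm_eq_abs, abs_of_pos hp.1.1] at h2
    have h3 : ‖-x - p‖ ≤ χ p * |R| := by
      have h4 := h2.trans (le_abs_self R)
      rw [inv_mul_le_iff₀ hp.1.1] at h4
      exact h4
    have h5 : ‖p‖ ≤ ‖p₀‖ + 1 := by
      have h6 : ‖p - p₀‖ < 1 := by
        have := hp.2
        rwa [mem_ball_iff_norm] at this
      have h7 : ‖p‖ ≤ ‖p - p₀‖ + ‖p₀‖ := by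
        have := norm_add_le (p - p₀) p₀
        rwa [sub_add_cancel] at this
      linarith
    rw [mem_closedBall_zero_iff]
    have h8 : ‖x‖ ≤ ‖-x - p‖ + ‖p‖ := by
      have := norm_add_le (-x - p) p
      rwa [sub_add_cancel, norm_neg] at this
    have h9 : χ p * |R| ≤ (χ p₀ + 1) * |R| :=
      mul_le_mul_of_nonneg_right (le_of_lt hp.1.2) (abs_nonneg _)
    linarith
  · have h1 : (Function.HasUncurry.uncurry (kk g χ)) = fun q : E d × E d =>
        (χ q.1 ^ d)⁻¹ * g ((χ q.1)⁻¹ • (-q.2 - q.1)) := by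
      ext q
      rfl
    rw [h1]
    have h2 : ∀ q ∈ s ×ˢ (univ : Set (E d)), χ q.1 ≠ 0 := fun q hq => hq.1.1.1.ne'
    have h3 : ContDiffOn ℝ ∞ (fun q : E d × E d => χ q.1) (s ×ˢ univ) :=
      (hχ.comp contDiff_fst).contDiffOn
    refine ContDiffOn.mul ((h3.pow d).inv fun q hq => pow_ne_zero _ (h2 q hq)) ?_
    refine hg.comp_contDiffOn ?_
    refine ContDiffOn.smul (h3.inv h2) ?_
    exact (contDiff_snd.neg.sub contDiff_fst).contDiffOn

theorem t_KER : Pool.Agent.Y501.SY.S_KER := by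
  intro d g χ hg hgc hχ p₀ hp₀
  obtain ⟨s, K, hs, hps, hK, hpos, hz, hsm⟩ := region g χ hg hgc hχ p₀ hp₀
  have hev : ∀ f : E d → ℝ, (fun p => ∫ y, g y * f (p + χ p • y)) =ᶠ[𝓝 p₀]
      fun p => (f ⋆[ContinuousLinearMap.mul ℝ ℝ, volume] kk g χ p) 0 := by
    intro f
    filter_upwards [hs.mem_nhds hps] with p hp
    exact subst g χ f p (hpos p hp)
  refine ⟨fun f hf hB => ?_, ?_⟩
  · refine ContDiffAt.congr_of_eventuallyEq ?_ (hev f)
    have h1 := contDiffOn_convolution_right_with_param_comp (n := (⊤ : ℕ∞))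
      (ContinuousLinearMap.mul ℝ ℝ) (v := fun _ : E d => (0 : E d)) contDiffOn_const hs hK hz
      (locInt f hf hB) hsm
    exact h1.contDiffAt (hs.mem_nhds hps)
  · -- bounds
    have hc1 : ContinuousOn (Function.HasUncurry.uncurry (kk g χ)) (s ×ˢ univ) := hsm.continuousOn
    have hc2 : ContinuousOn (fderiv ℝ (Function.HasUncurry.uncurry (kk g χ))) (s ×ˢ univ) :=
      hsm.continuousOn_fderiv_of_isOpen (hs.prod isOpen_univ) (by simp)
    have hm : ContinuousOn (fun x : E d => (p₀, x)) K := by fun_prop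
    have hmm : MapsTo (fun x : E d => (p₀, x)) K (s ×ˢ univ) := fun x _ => ⟨hps, mem_univ _⟩
    obtain ⟨C1, hC1⟩ := hK.exists_bound_of_continuousOn (hc1.comp hm hmm)
    obtain ⟨C2, hC2⟩ := hK.exists_bound_of_continuousOn (hc2.comp hm hmm)
    have hz' : ∀ x, x ∉ K → fderiv ℝ (Function.HasUncurry.uncurry (kk g χ)) (p₀, x) = 0 := by
      intro x hx
      apply (hasFDerivAt_zero_of_eventually_const (0 : ℝ) _).fderiv
      have M2 : Kᶜ ∈ 𝓝 x := IsOpen.mem_nhds hK.isClosed.isOpen_compl hx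
      have M1 : s ∈ 𝓝 p₀ := hs.mem_nhds hps
      rw [nhds_prod_eq]
      filter_upwards [prod_mem_prod M1 M2]
      rintro ⟨p, y⟩ ⟨hp, hy⟩
      exact hz p y hp hy
    have hb1 : ∀ x, ‖kk g χ p₀ x‖ ≤ |C1| := by
      intro x
      by_cases hx : x ∈ K
      · exact (hC1 x hx).trans (le_abs_self _)
      · rw [hz p₀ x hps hx, norm_zero]; exact abs_nonneg _
    have hb2 : ∀ x, ‖fderiv ℝ (Function.HasUncurry.uncurry (kk g χ)) (p₀, x)‖ ≤ |C2| := by
      intro x
      by_cases hx : x ∈ K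
      · exact (hC2 x hx).trans (le_abs_self _)
      · rw [hz' x hx, norm_zero]; exact abs_nonneg _
    set L := (ContinuousLinearMap.mul ℝ ℝ).precompR (E d × E d) with hL
    have hLs : ∀ (u : ℝ) (T : E d × E d →L[ℝ] ℝ), L u T = u • T := by
      intro u T
      ext v <;> simp [hL, ContinuousLinearMap.precompR_apply]
    refine ⟨max |C1| |C2|, fun f hf hB hfi => ?_⟩
    have hfn : 0 ≤ ∫ x, |f x| := integral_nonneg fun x => abs_nonneg _
    have hfa : Integrable (fun x => |f x|) volume := hfi.abs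
    constructor
    · rw [subst g χ f p₀ hp₀]
      unfold convolution
      have h1 : |∫ t, ((ContinuousLinearMap.mul ℝ ℝ) (f t)) (kk g χ p₀ (0 - t))| ≤
          ∫ t, |C1| * |f t| := by
        rw [← Real.norm_eq_abs]
        refine norm_integral_le_of_norm_le (hfa.const_mul _) (ae_of_all _ fun t => ?_)
        rw [ContinuousLinearMap.mul_apply', norm_mul, Real.norm_eq_abs (f t), mul_comm]
        exact mul_le_mul_of_nonneg_right (hb1 _) (abs_nonneg _)
      refine h1.trans ?_
      rw [integral_const_mul]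
      exact mul_le_mul_of_nonneg_right (le_max_left _ _) hfn
    · have h1 := hasFDerivAt_convolution_right_with_param (μ := volume)
        (ContinuousLinearMap.mul ℝ ℝ) hs hK hz
        (locInt f hf hB) (hsm.of_le (by simp)) (p₀, (0 : E d)) hps
      have h2 : HasFDerivAt (fun p : E d => (p, (0 : E d)))
          (ContinuousLinearMap.inl ℝ (E d) (E d)) p₀ := hasFDerivAt_prodMk_left p₀ 0
      have h3 := h1.comp p₀ h2
      have h4 := (h3.congr_of_eventuallyEq (hev f)).fderiv
      rw [h4]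
      have h5 : ‖(f ⋆[L, volume] fun x : E d => fderiv ℝ (Function.HasUncurry.uncurry (kk g χ))
          (p₀, x)) 0‖ ≤ |C2| * ∫ x, |f x| := by
        unfold convolution
        rw [← integral_const_mul]
        refine norm_integral_le_of_norm_le (hfa.const_mul _) (ae_of_all _ fun t => ?_)
        rw [hLs, norm_smul, Real.norm_eq_abs, mul_comm]
        exact mul_le_mul_of_nonneg_right (hb2 (0 - t)) (abs_nonneg _)
      refine (ContinuousLinearMap.opNorm_comp_le _ _).trans ?_
      have h7 : ‖ContinuousLinearMap.inl ℝ (E d) (E d)‖ ≤ 1 := by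
        refine ContinuousLinearMap.opNorm_le_bound _ zero_le_one fun x => ?_
        rw [ContinuousLinearMap.inl_apply, Prod.norm_def, norm_zero, one_mul]
        exact max_le le_rfl (norm_nonneg _)
      calc _ ≤ (|C2| * ∫ x, |f x|) * 1 :=
            mul_le_mul h5 h7 (norm_nonneg _) (by positivity)
        _ = |C2| * ∫ x, |f x| := mul_one _
        _ ≤ _ := mul_le_mul_of_nonneg_right (le_max_right _ _) hfn

end Pool.Agent.Y932.SY.Ker
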